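import Pool.Agent.H25.MF.Targets

/-!
# Limit of the left side (row TL of mf_modules)
-/

set_option autoImplicit false

open Complex MeasureTheory Filter Topology

namespace Pool.Agent.H68.MF

open Pool.Agent.H25.MF

theorem int_bound {K : ℝ → ℝ} {Kh : ℝ → ℂ} {T : ℝ} (hK : Ker K Kh T) (v₀ C : ℝ) :
    Integrable (fun v : ℝ => C * (1 + |v|) * K (v₀ - v)) := by
  have h1 : Integrable (fun v : ℝ => K (v₀ - v)) := hK.int.comp_sub_left v₀
  have h2 : Integrable (fun v : ℝ => |v₀ - v| * K (v₀ - v)) := hK.mom.comp_sub_left v₀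
  have h3 : Integrable (fun v : ℝ => (1 + |v|) * K (v₀ - v)) := by
    refine ((h1.const_mul (1 + |v₀|)).add h2).mono' ?_ ?_
    · exact ((continuous_const.add continuous_abs).mul
        (hK.cont.comp (continuous_const.sub continuous_id))).aestronglyMeasurable
    · refine Filter.Eventually.of_forall fun v => ?_
      simp only [Pi.add_apply]
      rw [Real.norm_eq_abs, abs_of_nonneg (mul_nonneg (by positivity) (hK.nonneg _)), ← add_mul]
      refine mul_le_mul_of_nonneg_right ?_ (hK.nonneg _)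
      have h4 : |v| ≤ |v₀| + |v₀ - v| := by
        have h5 := abs_sub v₀ (v₀ - v)
        have h6 : v₀ - (v₀ - v) = v := by ring
        rwa [h6] at h5
      linarith
  refine (h3.const_mul C).congr (Filter.Eventually.of_forall fun v => ?_)
  simp only
  ring

/-- the dominated limit -/
theorem limit_part {K : ℝ → ℝ} {Kh : ℝ → ℂ} {T : ℝ} (hK : Ker K Kh T) (v₀ C : ℝ) (f : ℝ → ℝ)
    (hf : Continuous f) (s : ℝ) (hb : ∀ δ v : ℝ, 0 ≤ δ → δ ≤ 3 / 4 →
      |f v| * Real.exp (s * δ * v) ≤ C * (1 + |v|)) :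
    Tendsto (fun δ : ℝ => ∫ v : ℝ, (f v : ℂ) * cexp (((s * δ * v : ℝ) : ℂ)) * K (v₀ - v))
      (𝓝[>] 0) (𝓝 (∫ v : ℝ, (f v : ℂ) * K (v₀ - v))) ∧
    Integrable (fun v : ℝ => (f v : ℂ) * K (v₀ - v)) := by
  have hKc : Continuous (fun v : ℝ => K (v₀ - v)) :=
    hK.cont.comp (continuous_const.sub continuous_id)
  have hKcC : Continuous (fun v : ℝ => ((K (v₀ - v) : ℝ) : ℂ)) := continuous_ofReal.comp hKc
  have hfC : Continuous (fun v : ℝ => ((f v : ℝ) : ℂ)) := continuous_ofReal.comp hf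
  have hnorm : ∀ δ v : ℝ, 0 ≤ δ → δ ≤ 3 / 4 →
      ‖(f v : ℂ) * cexp (((s * δ * v : ℝ) : ℂ)) * K (v₀ - v)‖ ≤ C * (1 + |v|) * K (v₀ - v) := by
    intro δ v h0 h1
    rw [norm_mul, norm_mul, ← ofReal_exp, norm_real, norm_real, norm_real, Real.norm_eq_abs,
      Real.norm_eq_abs, Real.norm_eq_abs, abs_of_nonneg (hK.nonneg _),
      abs_of_pos (Real.exp_pos _)]
    exact mul_le_mul_of_nonneg_right (hb δ v h0 h1) (hK.nonneg _)
  constructor
  · refine tendsto_integral_filter_of_dominated_convergence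
      (fun v : ℝ => C * (1 + |v|) * K (v₀ - v)) ?_ ?_ (int_bound hK v₀ C) ?_
    · refine Filter.Eventually.of_forall fun δ => ?_
      refine Continuous.aestronglyMeasurable ?_
      refine (hfC.mul (Complex.continuous_exp.comp (continuous_ofReal.comp ?_))).mul hKcC
      exact continuous_const.mul continuous_id
    · have h1 : ∀ᶠ δ : ℝ in 𝓝[>] 0, δ ∈ Set.Ioc (0 : ℝ) (3 / 4) :=
        Ioc_mem_nhdsGT (by norm_num)
      filter_upwards [h1] with δ hδ
      exact Filter.Eventually.of_forall fun v => hnorm δ v hδ.1.le hδ.2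
    · refine Filter.Eventually.of_forall fun v => ?_
      have h1 : Tendsto (fun δ : ℝ => (f v : ℂ) * cexp (((s * δ * v : ℝ) : ℂ)) * K (v₀ - v))
          (𝓝 0) (𝓝 ((f v : ℂ) * cexp (((s * 0 * v : ℝ) : ℂ)) * K (v₀ - v))) := by
        refine Continuous.tendsto ?_ 0
        refine (continuous_const.mul (Complex.continuous_exp.comp (continuous_ofReal.comp ?_))).mul
          continuous_const
        exact (continuous_const.mul continuous_id).mul continuous_const
      have h2 : (f v : ℂ) * cexp (((s * 0 * v : ℝ) : ℂ)) * K (v₀ - v) =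
          (f v : ℂ) * K (v₀ - v) := by
        rw [mul_zero, zero_mul, ofReal_zero, Complex.exp_zero, mul_one]
      rw [h2] at h1
      exact h1.mono_left nhdsWithin_le_nhds
  · refine (int_bound hK v₀ C).mono' (hfC.mul hKcC).aestronglyMeasurable ?_
    refine Filter.Eventually.of_forall fun v => ?_
    have h1 := hnorm 0 v le_rfl (by norm_num)
    rw [mul_zero, zero_mul, ofReal_zero, Complex.exp_zero, mul_one] at h1
    exact h1

theorem pf_TL (hFR : T_FR) (hSL : T_SL) (hGB : T_GB) (hSP : T_SP) : T_TL := by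
  intro g H hg τ v₀ T K Kh hτ hK
  obtain ⟨C, hC⟩ := hGB g H hg τ hτ
  obtain ⟨hcp, hcm, hsm⟩ := hSP g hg.gr τ hτ
  have hC0 : 0 ≤ C := by
    have h1 := (hC 0).1
    rw [abs_zero, add_zero, mul_one] at h1
    exact (abs_nonneg _).trans h1
  have hbp : ∀ δ v : ℝ, 0 ≤ δ → δ ≤ 3 / 4 →
      |smp g τ v| * Real.exp (-1 * δ * v) ≤ C * (1 + |v|) := by
    intro δ v h0 h1
    rcases le_total 0 v with hv | hv
    · have h2 : Real.exp (-1 * δ * v) ≤ 1 := by
        rw [Real.exp_le_one_iff]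
        nlinarith
      calc |smp g τ v| * Real.exp (-1 * δ * v) ≤ |smp g τ v| * 1 :=
            mul_le_mul_of_nonneg_left h2 (abs_nonneg _)
        _ = |smp g τ v| := mul_one _
        _ ≤ C * (1 + |v|) := (hC v).1
    · calc |smp g τ v| * Real.exp (-1 * δ * v)
          ≤ (C * Real.exp (3 / 4 * v)) * Real.exp (-1 * δ * v) :=
            mul_le_mul_of_nonneg_right (hC v).2.1 (Real.exp_pos _).le
        _ = C * Real.exp (3 / 4 * v + -1 * δ * v) := by rw [mul_assoc, ← Real.exp_add]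
        _ ≤ C * 1 := by
            refine mul_le_mul_of_nonneg_left ?_ hC0
            rw [Real.exp_le_one_iff]
            nlinarith
        _ ≤ C * (1 + |v|) := mul_le_mul_of_nonneg_left (by linarith [abs_nonneg v]) hC0
  have hbm : ∀ δ v : ℝ, 0 ≤ δ → δ ≤ 3 / 4 →
      |smm g τ v| * Real.exp (1 * δ * v) ≤ C * (1 + |v|) := by
    intro δ v h0 h1
    rcases le_total 0 v with hv | hv
    · calc |smm g τ v| * Real.exp (1 * δ * v)
          ≤ (C * Real.exp (-(3 / 4 * v))) * Real.exp (1 * δ * v) :=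
            mul_le_mul_of_nonneg_right (hC v).2.2.2 (Real.exp_pos _).le
        _ = C * Real.exp (-(3 / 4 * v) + 1 * δ * v) := by rw [mul_assoc, ← Real.exp_add]
        _ ≤ C * 1 := by
            refine mul_le_mul_of_nonneg_left ?_ hC0
            rw [Real.exp_le_one_iff]
            nlinarith
        _ ≤ C * (1 + |v|) := mul_le_mul_of_nonneg_left (by linarith [abs_nonneg v]) hC0
    · have h2 : Real.exp (1 * δ * v) ≤ 1 := by
        rw [Real.exp_le_one_iff]
        nlinarith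
      calc |smm g τ v| * Real.exp (1 * δ * v) ≤ |smm g τ v| * 1 :=
            mul_le_mul_of_nonneg_left h2 (abs_nonneg _)
        _ = |smm g τ v| := mul_one _
        _ ≤ C * (1 + |v|) := (hC v).2.2.1
  obtain ⟨l1, i1⟩ := limit_part hK v₀ C (smp g τ) hcp (-1) hbp
  obtain ⟨l2, i2⟩ := limit_part hK v₀ C (smm g τ) hcm 1 hbm
  have e1 : (((∫ v, sm g τ v * K (v₀ - v) : ℝ)) : ℂ) =
      (∫ v : ℝ, (smp g τ v : ℂ) * K (v₀ - v)) + ∫ v : ℝ, (smm g τ v : ℂ) * K (v₀ - v) := by
    rw [← integral_add i1 i2, ← integral_complex_ofReal]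
    refine integral_congr_ae (Filter.Eventually.of_forall fun v => ?_)
    simp only
    rw [hsm]
    push_cast
    ring
  rw [e1]
  refine (l1.add l2).congr' ?_
  have h1 : ∀ᶠ δ : ℝ in 𝓝[>] 0, δ ∈ Set.Ioc (0 : ℝ) (3 / 4) := Ioc_mem_nhdsGT (by norm_num)
  filter_upwards [h1] with δ hδ
  have hp : ∀ v, rep H τ δ v = (smp g τ v : ℂ) := by
    intro v
    rw [(hFR g H hg τ v hτ).1, (hSL H hg.df hg.bd τ v δ hτ hδ.1 hδ.2).1]
  have hm : ∀ v, rep H τ (-δ) v = -(smm g τ v : ℂ) := by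
    intro v
    rw [(hFR g H hg τ v hτ).2, (hSL H hg.df hg.bd τ v δ hτ hδ.1 hδ.2).2, neg_neg]
  unfold lft
  have e2 : ∫ v : ℝ, rep H τ (-δ) v * cexp (-(((-δ : ℝ) : ℂ) * v)) * K (v₀ - v) =
      -∫ v : ℝ, (smm g τ v : ℂ) * cexp (((1 * δ * v : ℝ) : ℂ)) * K (v₀ - v) := by
    rw [← integral_neg]
    refine integral_congr_ae (Filter.Eventually.of_forall fun v => ?_)
    simp only
    rw [hm]
    push_cast
    have e3 : -(-(δ : ℂ) * (v : ℂ)) = 1 * (δ : ℂ) * v := by ring
    rw [e3]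
    ring
  have e4 : ∫ v : ℝ, rep H τ δ v * cexp (-((δ : ℂ) * v)) * K (v₀ - v) =
      ∫ v : ℝ, (smp g τ v : ℂ) * cexp (((-1 * δ * v : ℝ) : ℂ)) * K (v₀ - v) := by
    refine integral_congr_ae (Filter.Eventually.of_forall fun v => ?_)
    simp only
    rw [hp]
    push_cast
    have e3 : -((δ : ℂ) * (v : ℂ)) = -1 * (δ : ℂ) * v := by ring
    rw [e3]
  rw [e2, e4, sub_neg_eq_add]

end Pool.Agent.H68.MF
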